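import Mathlib

set_option autoImplicit false

namespace Pool.Agent.Results.MP_23f460_nt.SumSquares

open Finset

def omul (a0 a1 a2 a3 a4 : ℤ) (b : Fin 8 → ℤ) : Fin 8 → ℤ :=
  ![a0*b 0 - a1*b 1 - a2*b 2 - a3*b 3 - a4*b 4,
    a0*b 1 + a1*b 0 + a2*b 3 - a3*b 2 + a4*b 5,
    a0*b 2 - a1*b 3 + a2*b 0 + a3*b 1 + a4*b 6,
    a0*b 3 + a1*b 2 - a2*b 1 + a3*b 0 + a4*b 7,
    a0*b 4 - a1*b 5 - a2*b 6 - a3*b 7 + a4*b 0,
    a0*b 5 + a1*b 4 - a2*b 7 + a3*b 6 - a4*b 1,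
    a0*b 6 + a1*b 7 + a2*b 4 - a3*b 5 - a4*b 2,
    a0*b 7 - a1*b 6 + a2*b 5 + a3*b 4 - a4*b 3]

lemma omul_sq (a0 a1 a2 a3 a4 : ℤ) (b : Fin 8 → ℤ) :
    ∑ j, (omul a0 a1 a2 a3 a4 b j) ^ 2 = (a0^2 + a1^2 + a2^2 + a3^2 + a4^2) * ∑ j, (b j)^2 := by
  simp only [Fin.sum_univ_eight, omul, Matrix.cons_val]
  ring

lemma omul_mod (d t a1 a2 a3 a4 : ℤ) (b : Fin 8 → ℤ) (j : Fin 8) :
    d ∣ omul (1 + d * t) (d * a1) (d * a2) (d * a3) (d * a4) b j - b j := by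
  refine ⟨omul t a1 a2 a3 a4 b j, ?_⟩
  fin_cases j <;> simp [omul] <;> ring

lemma blk (d : ℕ) (hd : Odd d) (n : ℕ) (hn : 2 * d + d ^ 3 ≤ n) :
    ∃ f : (Fin 8 → ℤ) → (Fin 8 → ℤ), ∀ b, (∀ j, (d : ℤ) ∣ f b j - b j) ∧
      ∑ j, (f b j) ^ 2 = (1 + d * n) * ∑ j, (b j) ^ 2 := by
  obtain ⟨e, he⟩ := hd
  have hd0 : 0 < d := by omega
  set t : ℕ := (n * (e + 1)) % d with ht
  have htd : t < d := Nat.mod_lt _ hd0
  have h1 : (d : ℤ) ∣ (n : ℤ) - 2 * t := by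
    have h2 : (n : ℤ) * (e + 1) = d * ((n * (e + 1)) / d : ℕ) + t := by
      have := Nat.div_add_mod (n * (e + 1)) d
      rw [ht]; exact_mod_cast this.symm
    have h3 : (d : ℤ) = 2 * e + 1 := by exact_mod_cast he
    refine ⟨2 * ((n * (e + 1)) / d : ℕ) - n, ?_⟩
    have : (t : ℤ) = n * (e + 1) - d * ((n * (e + 1)) / d : ℕ) := by linarith
    rw [this]
    generalize (((n * (e + 1)) / d : ℕ) : ℤ) = Q
    rw [h3]; ring
  obtain ⟨s, hs⟩ := h1
  have hst : 0 ≤ s - t ^ 2 := by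
    have hd1 : (0 : ℤ) < d := by exact_mod_cast hd0
    have htd' : (t : ℤ) < d := by exact_mod_cast htd
    have ht0 : (0 : ℤ) ≤ t := by positivity
    have hn' : 2 * (d : ℤ) + d ^ 3 ≤ n := by exact_mod_cast hn
    have h4 : (t : ℤ) ^ 2 ≤ d ^ 2 := by nlinarith
    have h5 : (d : ℤ) * d ^ 2 ≤ d * s := by nlinarith
    have h6 : (d : ℤ) ^ 2 ≤ s := le_of_mul_le_mul_left h5 hd1
    linarith
  obtain ⟨a1, a2, a3, a4, ha⟩ := Nat.sum_four_squares (s - t ^ 2).toNat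
  have ha' : (a1 : ℤ) ^ 2 + a2 ^ 2 + a3 ^ 2 + a4 ^ 2 = s - t ^ 2 := by
    rw [← Int.toNat_of_nonneg hst]; exact_mod_cast ha
  refine ⟨omul (1 + d * t) (d * a1) (d * a2) (d * a3) (d * a4), fun b => ⟨fun j => omul_mod _ _ _ _ _ _ _ _, ?_⟩⟩
  rw [omul_sq]
  congr 1
  have : (n : ℤ) = d * s + 2 * t := by linarith
  rw [this]
  linear_combination (d : ℤ) ^ 2 * ha'

lemma kappa (d : ℕ) (hd0 : 0 < d) (a : ℕ) : ∃ h u t : ℕ, h ∣ d ∧ u.Coprime d ∧ a + d * t = h * u := by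
  set h := Nat.gcd a d with hh
  have hh0 : 0 < h := Nat.gcd_pos_of_pos_right _ hd0
  obtain ⟨a', ha'⟩ : h ∣ a := Nat.gcd_dvd_left a d
  obtain ⟨d', hd'⟩ : h ∣ d := Nat.gcd_dvd_right a d
  have hc : a'.Coprime d' := by
    have : Nat.gcd (h * a') (h * d') = h := by rw [← ha', ← hd']
    rw [Nat.gcd_mul_left] at this
    exact (Nat.mul_eq_left hh0.ne').mp this
  let ps : Finset ℕ := {p ∈ d.primeFactors | ¬p ∣ a'}
  refine ⟨h, a' + ps.prod id * d', ps.prod id, ⟨d', hd'⟩, ?_, ?_⟩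
  · apply Nat.coprime_of_dvd
    intro p pp hp hpn
    by_cases hpx : p ∣ a'
    · have h := Nat.dvd_sub hp hpx
      rw [add_comm, Nat.add_sub_cancel] at h
      rcases pp.dvd_mul.mp h with h | h
      · have ⟨q, hq, hq'⟩ := (pp.prime.dvd_finsetProd_iff id).mp h
        rw [Finset.mem_filter, Nat.mem_primeFactors,
          ← (Nat.prime_dvd_prime_iff_eq pp hq.1.1).mp hq'] at hq
        exact hq.2 hpx
      · exact Nat.Prime.not_coprime_iff_dvd.mpr ⟨p, pp, hpx, h⟩ hc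
    · have pps : p ∈ ps := Finset.mem_filter.mpr ⟨Nat.mem_primeFactors.mpr ⟨pp, hpn, hd0.ne'⟩, hpx⟩
      have h := Nat.dvd_sub hp ((Finset.dvd_prod_of_mem id pps).mul_right d')
      rw [Nat.add_sub_cancel] at h
      exact hpx h
  · conv_lhs => rw [ha', hd']
    ring

lemma gcd_dvd (d g A h u : ℕ) (hh : h ∣ d) (hu : u.Coprime d) (hA : A ≡ h * u [MOD d ^ 2])
    (hg : g ∣ A) (hp : ∀ p, p.Prime → p ∣ g → p ∣ d) : g ∣ d := by
  rw [Nat.dvd_iff_prime_pow_dvd_dvd]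
  intro p k pp
  induction k with
  | zero => simp
  | succ k ih =>
    intro hk
    have h1 : p ^ k ∣ d := ih ((pow_dvd_pow p (Nat.le_succ k)).trans hk)
    have h2 : p ∣ d := hp p pp ((dvd_pow_self p (Nat.succ_ne_zero k)).trans hk)
    have h3 : p ^ (k + 1) ∣ d ^ 2 := by rw [pow_succ, sq]; exact mul_dvd_mul h1 h2
    have h4 : p ^ (k + 1) ∣ h * u := ((hA.of_dvd h3).dvd_iff (dvd_refl _)).mp (hk.trans hg)
    have h5 : (p ^ (k + 1)).Coprime u :=
      Nat.Coprime.pow_left _ (Nat.Coprime.coprime_dvd_left h2 hu.symm)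
    exact (h5.dvd_of_dvd_mul_right h4).trans hh


lemma sq_cong {ι : Type*} (s : Finset ι) (D : ℤ) (x y : ι → ℤ) (h : ∀ j, D ∣ x j - y j) :
    D ∣ ∑ j ∈ s, x j ^ 2 - ∑ j ∈ s, y j ^ 2 := by
  rw [← Finset.sum_sub_distrib]
  refine Finset.dvd_sum fun j _ => ?_
  rw [sq_sub_sq]
  exact (h j).mul_left _

lemma sq_cong2 {ι κ : Type*} [Fintype ι] [Fintype κ] (D : ℤ) (x y : ι → κ → ℤ)
    (h : ∀ i j, D ∣ x i j - y i j) :
    D ∣ ∑ i, ∑ j, x i j ^ 2 - ∑ i, ∑ j, y i j ^ 2 := by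
  rw [← Finset.sum_sub_distrib]
  exact Finset.dvd_sum fun i _ => sq_cong _ _ _ _ (h i)

lemma step2 (k d : ℕ) (hd : Odd d) (hd1 : 1 < d) (w0 : Fin 8 → ℤ) (r0 : Fin (k + 1) → Fin 8 → ℤ)
    (h u : ℕ) (hh : h ∣ d) (hu : u.Coprime d)
    (hq : (d : ℤ) ^ 2 ∣ (∑ j, w0 j ^ 2 + ∑ i, ∑ j, r0 i j ^ 2) - h * u) :
    ∃ (w : Fin 8 → ℤ) (r : Fin (k + 1) → Fin 8 → ℤ), (∀ j, (d : ℤ) ∣ w j - w0 j) ∧
      (∀ i j, (d : ℤ) ∣ r i j - r0 i j) ∧ ∃ i c : ℕ, 0 < c ∧ c < d ^ 2 ∧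
        ∑ j, w j ^ 2 + ∑ i, ∑ j, r i j ^ 2 = 2 ^ i * c := by
  have hd0 : 0 < d := by omega
  obtain ⟨w1, hw1, hw1'⟩ : ∃ w1 : Fin 8 → ℤ, (∀ j, (d : ℤ) ^ 2 ∣ w1 j - w0 j) ∧ w1 0 ≠ 0 := by
    by_cases h0 : w0 0 = 0
    · refine ⟨fun j => w0 j + d ^ 2, fun j => by simp, ?_⟩
      simp only [h0, zero_add]; positivity
    · exact ⟨w0, fun j => by simp, h0⟩
  obtain ⟨A1, hA1⟩ : ∃ A1 : ℕ, (A1 : ℤ) = ∑ j, w1 j ^ 2 :=
    ⟨(∑ j, w1 j ^ 2).toNat, Int.toNat_of_nonneg (Finset.sum_nonneg fun j _ => sq_nonneg _)⟩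
  have hA10 : 0 < A1 := by
    have : (0 : ℤ) < ∑ j, w1 j ^ 2 :=
      Finset.sum_pos' (fun j _ => sq_nonneg _) ⟨0, Finset.mem_univ _, by positivity⟩
    rw [← hA1] at this; exact_mod_cast this
  set E : ℤ := (d : ℤ) ^ (2 * A1.factorial) with hE
  have hEd : (d : ℤ) ^ 2 ∣ E := by
    rw [hE, pow_mul]; exact dvd_pow_self _ (Nat.factorial_ne_zero _)
  set δ : Fin (k + 1) → Fin 8 → ℤ := fun i j => if i = 0 ∧ j = 0 then 1 else 0 with hδ
  set r1 : Fin (k + 1) → Fin 8 → ℤ := fun i j => (1 - E) * r0 i j + E * δ i j with hr1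
  have hr10 : ∀ i j, (d : ℤ) ^ 2 ∣ r1 i j - r0 i j := fun i j => by
    have : r1 i j - r0 i j = E * (δ i j - r0 i j) := by simp only [hr1]; ring
    rw [this]; exact hEd.mul_right _
  obtain ⟨A2, hA2⟩ : ∃ A2 : ℕ, (A2 : ℤ) = ∑ i, ∑ j, r1 i j ^ 2 :=
    ⟨(∑ i, ∑ j, r1 i j ^ 2).toNat, Int.toNat_of_nonneg
      (Finset.sum_nonneg fun i _ => Finset.sum_nonneg fun j _ => sq_nonneg _)⟩
  have hδs : ∑ i, ∑ j, δ i j ^ 2 = 1 := by
    simp [hδ, Fin.sum_univ_succ, Finset.filter_eq']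
  have hA : A1 + A2 ≡ h * u [MOD d ^ 2] := by
    rw [Nat.modEq_iff_dvd]
    push_cast
    rw [hA1, hA2]
    have e1 := sq_cong Finset.univ _ _ _ hw1
    have e2 := sq_cong2 _ _ _ hr10
    obtain ⟨x1, hx1⟩ := e1
    obtain ⟨x2, hx2⟩ := e2
    obtain ⟨x3, hx3⟩ := hq
    exact ⟨-(x1 + x2 + x3), by linear_combination -hx1 - hx2 - hx3⟩
  have hg : Nat.gcd A1 A2 ∣ d := by
    refine gcd_dvd d _ (A1 + A2) h u hh hu hA
      (dvd_add (Nat.gcd_dvd_left _ _) (Nat.gcd_dvd_right _ _)) ?_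
    intro p pp hp
    by_contra hpd
    have hp1 : p ∣ A1 := hp.trans (Nat.gcd_dvd_left _ _)
    have hp2 : p ∣ A2 := hp.trans (Nat.gcd_dvd_right _ _)
    have hple : p ≤ A1 := Nat.le_of_dvd hA10 hp1
    have hcop : d.Coprime p := ((Nat.Prime.coprime_iff_not_dvd pp).mpr hpd).symm
    have hF : d ^ (p - 1) ≡ 1 [MOD p] := by
      have := Nat.ModEq.pow_totient hcop
      rwa [Nat.totient_prime pp] at this
    obtain ⟨c, hc⟩ : (p - 1) ∣ A1.factorial :=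
      Nat.dvd_factorial (by have := pp.two_le; omega) (by omega)
    have hE1 : (p : ℤ) ∣ 1 - E := by
      have h3 : d ^ (2 * A1.factorial) ≡ 1 [MOD p] := by
        rw [hc, show 2 * ((p - 1) * c) = (p - 1) * (2 * c) by ring, pow_mul]
        simpa using hF.pow (2 * c)
      have := (Nat.modEq_iff_dvd).mp h3
      rw [hE]; exact_mod_cast this
    have h4 : ∀ i j, (p : ℤ) ∣ r1 i j - δ i j := fun i j => by
      have : r1 i j - δ i j = (1 - E) * (r0 i j - δ i j) := by simp only [hr1]; ring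
      rw [this]; exact hE1.mul_right _
    have h5 := sq_cong2 _ _ _ h4
    rw [hδs, ← hA2] at h5
    have h6 : (p : ℤ) ∣ A2 := by exact_mod_cast hp2
    have h7 : (p : ℤ) ∣ 1 := by
      have := dvd_sub h6 h5
      simpa using this
    have : p ∣ 1 := by exact_mod_cast h7
    exact pp.one_lt.ne' (Nat.dvd_one.mp this)
  set c := (h * u) % d ^ 2 with hc
  have hc1 : c < d ^ 2 := Nat.mod_lt _ (by positivity)
  have hc0 : 0 < c := by
    rcases Nat.eq_zero_or_pos c with h0 | h0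
    · exfalso
      have h1 : d ^ 2 ∣ h * u := Nat.dvd_of_mod_eq_zero h0
      have h2 : d ^ 2 ∣ h := (Nat.Coprime.pow_left 2 hu.symm).dvd_of_dvd_mul_right h1
      have h3 : d ^ 2 ≤ d := Nat.le_of_dvd hd0 (h2.trans hh)
      nlinarith
    · exact h0
  set n0 := 2 * d + d ^ 3 with hn0
  set B := (A1 + A2) + d * (n0 * (A1 + A2) + A1 * A2) with hB
  have hcop2 : Nat.Coprime 2 (d ^ 2) :=
    Nat.Coprime.pow_right 2 ((Nat.coprime_two_left).mpr hd)
  have hphi : 0 < Nat.totient (d ^ 2) := Nat.totient_pos.mpr (by positivity)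
  set i := Nat.totient (d ^ 2) * B with hi
  have h2i : 2 ^ i ≡ 1 [MOD d ^ 2] := by
    rw [hi, pow_mul]; simpa using (Nat.ModEq.pow_totient hcop2).pow B
  have hTB : B ≤ 2 ^ i * c := by
    have h1 : B ≤ i := Nat.le_mul_of_pos_left _ hphi
    have h2 : i < 2 ^ i := Nat.lt_two_pow_self
    have h3 : 2 ^ i ≤ 2 ^ i * c := Nat.le_mul_of_pos_right _ hc0
    omega
  have hT : A1 + A2 ≡ 2 ^ i * c [MOD d ^ 2] := by
    have h1 : 2 ^ i * c ≡ 1 * (h * u) [MOD d ^ 2] := h2i.mul (Nat.mod_modEq _ _)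
    rw [one_mul] at h1
    exact hA.trans h1.symm
  obtain ⟨s, hs⟩ := (Nat.modEq_iff_dvd' (by omega)).mp hT
  have hs1 : n0 * (A1 + A2) + A1 * A2 ≤ d * s := by
    have : d * (n0 * (A1 + A2) + A1 * A2) ≤ d * (d * s) := by
      have : d * (d * s) = d ^ 2 * s := by ring
      omega
    exact Nat.le_of_mul_le_mul_left this hd0
  obtain ⟨n1, n2, hn⟩ := Nat.exists_add_mul_eq_of_gcd_dvd_of_mul_pred_le A1 A2
    (d * s - n0 * (A1 + A2)) (Nat.dvd_sub (hg.mul_right _)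
      ((dvd_add (Nat.gcd_dvd_left _ _) (Nat.gcd_dvd_right _ _)).mul_left _)) (by
      have : A1.pred * A2.pred ≤ A1 * A2 := Nat.mul_le_mul (Nat.pred_le _) (Nat.pred_le _)
      omega)
  obtain ⟨f1, hf1⟩ := blk d hd (n0 + n1) (by omega)
  obtain ⟨f2, hf2⟩ := blk d hd (n0 + n2) (by omega)
  have hdd : (d : ℤ) ∣ (d : ℤ) ^ 2 := dvd_pow_self _ two_ne_zero
  refine ⟨f1 w1, fun i => f2 (r1 i), fun j => ?_, fun i j => ?_, i, c, hc0, hc1, ?_⟩
  · have := dvd_add ((hf1 w1).1 j) (hdd.trans (hw1 j))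
    simpa using this
  · have := dvd_add ((hf2 (r1 i)).1 j) (hdd.trans (hr10 i j))
    simpa using this
  · simp only [fun b => (hf1 b).2, fun b => (hf2 b).2]
    rw [← Finset.mul_sum, ← hA1, ← hA2]
    have e1 : 2 ^ i * c = A1 + A2 + d ^ 2 * s := by omega
    have e2 : n1 * A1 + n2 * A2 + n0 * (A1 + A2) = d * s := by omega
    have e1' : (2 : ℤ) ^ i * c = A1 + A2 + d ^ 2 * s := by exact_mod_cast e1
    have e2' : (n1 : ℤ) * A1 + n2 * A2 + n0 * (A1 + A2) = d * s := by exact_mod_cast e2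
    rw [e1']
    push_cast
    linear_combination (d : ℤ) * e2'

lemma core {ι : Type*} [Fintype ι] (k : ℕ) (ε : ι ≃ Fin (k + 2) × Fin 8) (d : ℕ) (hd : Odd d)
    (hd1 : 1 < d) (v y : ι → ℤ) (a : ℤ) (hb : ∑ j, v j * y j + d * a = 1) :
    ∃ z : ι → ℤ, (∀ j, (d : ℤ) ∣ z j - v j) ∧ ∃ i c : ℕ, 0 < c ∧ c < d ^ 2 ∧
      ∑ j, z j ^ 2 = 2 ^ i * c := by
  obtain ⟨A, hA⟩ : ∃ A : ℕ, (A : ℤ) = ∑ j, v j ^ 2 :=
    ⟨(∑ j, v j ^ 2).toNat, Int.toNat_of_nonneg (Finset.sum_nonneg fun j _ => sq_nonneg _)⟩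
  obtain ⟨h, u, t, hh, hu, ht⟩ := kappa d (by omega) A
  obtain ⟨e, he⟩ := id hd
  have he' : (d : ℤ) = 2 * e + 1 := by exact_mod_cast he
  have ht' : (A : ℤ) + d * t = h * u := by exact_mod_cast ht
  set z0 : ι → ℤ := fun j => v j + d * (t * (e + 1)) * y j with hz0
  have hsplit : ∀ F : ι → ℤ, ∑ j, F j = ∑ j, F (ε.symm (0, j)) +
      ∑ i : Fin (k + 1), ∑ j, F (ε.symm (i.succ, j)) := fun F => by
    rw [← Equiv.sum_comp ε.symm, Fintype.sum_prod_type, Fin.sum_univ_succ]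
  have hq : (d : ℤ) ^ 2 ∣ ∑ j, z0 j ^ 2 - h * u := by
    have : ∑ j, z0 j ^ 2 = ∑ j, v j ^ 2 + 2 * (d * (t * (e + 1))) * ∑ j, v j * y j +
        (d * (t * (e + 1))) ^ 2 * ∑ j, y j ^ 2 := by
      rw [Finset.mul_sum, Finset.mul_sum, ← Finset.sum_add_distrib, ← Finset.sum_add_distrib]
      exact Finset.sum_congr rfl fun j _ => by simp only [hz0]; ring
    rw [this, ← hA, ← ht', show ∑ j, v j * y j = 1 - d * a by linarith]
    refine ⟨t - (d + 1) * t * a + (t * (e + 1)) ^ 2 * ∑ j, y j ^ 2, ?_⟩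
    have h2 : 2 * ((e : ℤ) + 1) = d + 1 := by linarith
    linear_combination (d : ℤ) * t * (1 - d * a) * h2
  rw [hsplit] at hq
  obtain ⟨w, r, hw, hr, i, c, hc0, hc1, hs⟩ := step2 k d hd hd1 _ _ h u hh hu hq
  refine ⟨fun j => (Fin.cons w r : Fin (k + 2) → Fin 8 → ℤ) (ε j).1 (ε j).2, fun j => ?_, i, c, hc0, hc1, ?_⟩
  · obtain ⟨⟨i, j⟩, rfl⟩ := ε.symm.surjective j
    simp only [Equiv.apply_symm_apply]
    have h0 : ∀ j, (d : ℤ) ∣ z0 j - v j := fun j => ⟨t * (e + 1) * y j, by simp only [hz0]; ring⟩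
    refine Fin.cases ?_ (fun i => ?_) i
    · have := dvd_add (hw j) (h0 (ε.symm (0, j)))
      simpa using this
    · have := dvd_add (hr i j) (h0 (ε.symm (i.succ, j)))
      simpa using this
  · rw [hsplit]
    simpa using hs


lemma val_iff (x : ℚ) : (∀ p : ℕ, p.Prime → p ≠ 2 → 0 ≤ padicValRat p x) ↔
    ∀ p : ℕ, p.Prime → p ≠ 2 → ¬ p ∣ x.den := by
  refine forall_congr' fun p => forall_congr' fun pp => forall_congr' fun _ => ?_
  have : Fact p.Prime := ⟨pp⟩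
  rw [padicValRat_def]
  constructor
  · intro h hp
    have h1 : ¬ p ∣ x.num.natAbs := fun h2 =>
      pp.one_lt.ne' (Nat.eq_one_of_dvd_coprimes x.reduced h2 hp)
    have h2 : padicValInt p x.num = 0 := padicValNat.eq_zero_of_not_dvd h1
    have h3 := one_le_padicValNat_of_dvd x.den_nz hp
    omega
  · intro hp
    rw [padicValNat.eq_zero_of_not_dvd hp]
    simp

/-- The Hasse domain `R_S` for `K = ℚ` and `S = {∞, 2}`: the rationals whose valuation at every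
prime other than `2` is nonnegative. -/
def R : Subring ℚ where
  carrier := {x | ∀ p : ℕ, p.Prime → p ≠ 2 → 0 ≤ padicValRat p x}
  zero_mem' := fun p _ _ => by simp
  one_mem' := fun p _ _ => by simp
  add_mem' := by
    intro a b ha hb
    rw [Set.mem_ofPred_eq, val_iff] at *
    exact fun p pp h2 h => (pp.dvd_mul.mp (h.trans (Rat.add_den_dvd a b))).elim
      (ha p pp h2) (hb p pp h2)
  mul_mem' := by
    intro a b ha hb
    rw [Set.mem_ofPred_eq, val_iff] at *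
    exact fun p pp h2 h => (pp.dvd_mul.mp (h.trans (Rat.mul_den_dvd a b))).elim
      (ha p pp h2) (hb p pp h2)
  neg_mem' := by
    intro a ha
    rw [Set.mem_ofPred_eq, val_iff] at *
    simpa using ha

/-- The canonical norm on `R`: `|a| = #(R/aR)` for `a ≠ 0` and `|0| = 0`. -/
noncomputable def nrm (a : R) : ℕ := if a = 0 then 0 else Nat.card (R ⧸ Ideal.span {a})

/-- The canonical norm extended to `ℚ` by `|a/b| = |a|/|b|`. -/
noncomputable def nrmK (x : ℚ) : ℚ := (nrm (x.num : R) : ℚ) / (nrm (x.den : R) : ℚ)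

/-- A polynomial over `R` together with its number of variables. -/
structure Form where
  n : ℕ
  q : MvPolynomial (Fin n) R

/-- The value of the polynomial at a point of `ℚ^n`. -/
noncomputable def Form.ev (f : Form) (x : Fin f.n → ℚ) : ℚ := MvPolynomial.eval₂ R.subtype x f.q

/-- At least one variable, homogeneous of degree 2, nondegenerate over `ℚ`. -/
def Form.IsQuadratic (f : Form) : Prop :=
  1 ≤ f.n ∧ f.q.IsHomogeneous 2 ∧
    ∀ a : Fin f.n → ℚ, (∀ b, f.ev (a + b) - f.ev a - f.ev b = 0) → a = 0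

def Form.Anisotropic (f : Form) : Prop :=
  ∀ a : Fin f.n → R, a ≠ 0 → MvPolynomial.eval a f.q ≠ 0

def Form.Euclidean (f : Form) : Prop :=
  ∀ x : Fin f.n → ℚ, (¬ ∀ i, x i ∈ R) → ∃ y : Fin f.n → R,
    0 < nrmK (f.ev fun i => x i - y i) ∧ nrmK (f.ev fun i => x i - y i) < 1

/-- Same number of variables and `q'(x) = q(Ax)` for some `A ∈ GL_n(R)`. -/
def Form.Iso (f g : Form) : Prop :=
  ∃ (h : g.n = f.n) (A : GL (Fin f.n) R),
    MvPolynomial.rename (Fin.cast h) g.q =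
      MvPolynomial.aeval (fun i => ∑ j, MvPolynomial.C (A.val i j) * MvPolynomial.X j) f.q

lemma mem_R (x : ℚ) : x ∈ R ↔ ∃ (k : ℕ) (m : ℤ), x * 2 ^ k = m := by
  change (∀ p : ℕ, p.Prime → p ≠ 2 → 0 ≤ padicValRat p x) ↔ _
  rw [val_iff]
  constructor
  · intro h
    have := Nat.eq_prime_pow_of_unique_prime_dvd (p := 2) x.den_nz (fun {p} pp hp => by
      by_contra h2; exact h p pp h2 hp)
    refine ⟨x.den.primeFactorsList.length, x.num, ?_⟩
    have h2 : (x.den : ℚ) = 2 ^ x.den.primeFactorsList.length := by exact_mod_cast this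
    rw [← h2, Rat.mul_den_eq_num]
  · rintro ⟨k, m, h⟩ p pp h2 hp
    have h1 : x = (m : ℚ) / ((2 ^ k : ℕ) : ℤ) := by
      push_cast; rw [← h]; field_simp
    have h3 : (x.den : ℤ) ∣ ((2 ^ k : ℕ) : ℤ) := by
      rw [h1, ← Rat.divInt_eq_div]; exact Rat.den_dvd _ _
    have h4 : p ∣ 2 ^ k := hp.trans (by exact_mod_cast h3)
    exact h2 ((Nat.prime_dvd_prime_iff_eq pp Nat.prime_two).mp (pp.dvd_of_dvd_pow h4))

lemma two_unit : IsUnit (2 : R) := by
  have h : (1 / 2 : ℚ) ∈ R := (mem_R _).mpr ⟨1, 1, by norm_num⟩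
  refine IsUnit.of_mul_eq_one (⟨1 / 2, h⟩ : R) (Subtype.ext ?_)
  push_cast
  change (2 : ℚ) * (1 / 2) = 1
  norm_num

lemma card_odd (c : ℕ) (hc : Odd c) : Nat.card (R ⧸ Ideal.span {(c : R)}) = c := by
  let φ : ℤ →+* R ⧸ Ideal.span {(c : R)} := Int.castRingHom _
  have hφ : ∀ m : ℤ, φ m = Ideal.Quotient.mk _ (m : R) := fun m => by simp [φ]
  have hsurj : Function.Surjective φ := by
    intro x
    obtain ⟨x, rfl⟩ := Ideal.Quotient.mk_surjective x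
    obtain ⟨k, m, h⟩ := (mem_R x).mp x.2
    obtain ⟨e, he⟩ := hc
    refine ⟨m * (e + 1) ^ k, ?_⟩
    have h1 : (x : R) * 2 ^ k = (m : R) := Subtype.ext (by push_cast; exact h)
    have h2 : (2 * (e + 1) : R ⧸ Ideal.span {(c : R)}) = 1 := by
      have : ((c : ℕ) : R ⧸ Ideal.span {(c : R)}) = 0 := by
        rw [← map_natCast (Ideal.Quotient.mk _), Ideal.Quotient.eq_zero_iff_mem]
        exact Ideal.mem_span_singleton_self _
      have h' : ((2 * e + 1 : ℕ) : R ⧸ Ideal.span {(c : R)}) = 0 := by rw [← he]; exact this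
      push_cast at h'
      linear_combination h'
    have h3 : (Ideal.Quotient.mk (Ideal.span {(c : R)}) x) * 2 ^ k = (m : _) := by
      have := congrArg (Ideal.Quotient.mk (Ideal.span {(c : R)})) h1
      rwa [map_mul, map_pow, map_ofNat, map_intCast] at this
    simp only [φ, eq_intCast]
    push_cast
    rw [← h3, mul_assoc, ← mul_pow, h2]; simp
  have hker : RingHom.ker φ = Ideal.span {(c : ℤ)} := by
    ext m
    rw [RingHom.mem_ker, hφ, Ideal.Quotient.eq_zero_iff_mem, Ideal.mem_span_singleton,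
      Ideal.mem_span_singleton]
    constructor
    · rintro ⟨x, hx⟩
      obtain ⟨k, m', h⟩ := (mem_R x).mp x.2
      have h1 : (m : ℚ) = c * x := by exact_mod_cast congrArg Subtype.val hx
      have h2 : m * 2 ^ k = c * m' := by
        have : (m : ℚ) * 2 ^ k = c * m' := by rw [h1, mul_assoc, h]
        exact_mod_cast this
      have h3 : IsCoprime (c : ℤ) (2 ^ k) := by
        apply IsCoprime.pow_right
        have : Nat.Coprime c 2 := (Nat.coprime_two_right).mpr hc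
        exact_mod_cast Nat.isCoprime_iff_coprime.mpr this
      exact h3.dvd_of_dvd_mul_right ⟨m', h2⟩
    · rintro ⟨x, rfl⟩
      exact ⟨x, by push_cast; rfl⟩
  rw [← Nat.card_congr (RingHom.quotientKerEquivOfSurjective hsurj).toEquiv, hker,
    Nat.card_congr (Int.quotientSpanNatEquivZMod c).toEquiv, Nat.card_zmod]

lemma nrm_nat (i c : ℕ) (hc : Odd c) : nrm ((2 ^ i * c : ℕ) : R) = c := by
  have h0 : ((2 ^ i * c : ℕ) : R) ≠ 0 := by
    have : 2 ^ i * c ≠ 0 := by have := hc.pos; positivity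
    exact_mod_cast this
  rw [nrm, if_neg h0]
  have : Ideal.span {((2 ^ i * c : ℕ) : R)} = Ideal.span {(c : R)} := by
    push_cast
    exact Ideal.span_singleton_mul_left_unit (two_unit.pow i) _
  rw [this, card_odd c hc]

lemma nrmK_bound (x : ℚ) (i l c d : ℕ) (hd : Odd d) (hc0 : 0 < c) (hc : c < d ^ 2)
    (h : x * (2 ^ l * d ^ 2) = 2 ^ i * c) : 0 < nrmK x ∧ nrmK x < 1 := by
  have hd0 : 0 < d := hd.pos
  have hx : 0 < x := by
    have h1 : (0 : ℚ) < 2 ^ i * c := by positivity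
    have h2 : (0 : ℚ) < 2 ^ l * d ^ 2 := by positivity
    rw [← h] at h1
    exact (mul_pos_iff_of_pos_right h2).mp h1
  obtain ⟨N, hN⟩ : ∃ N : ℕ, x.num = N := ⟨x.num.toNat, (Int.toNat_of_nonneg (Rat.num_pos.mpr hx).le).symm⟩
  have hN0 : N ≠ 0 := by
    rintro rfl
    have := Rat.num_pos.mpr hx
    simp [hN] at this
  obtain ⟨a, N', hN', rfl⟩ := Nat.exists_eq_two_pow_mul_odd hN0
  obtain ⟨b, D', hD', hD⟩ := Nat.exists_eq_two_pow_mul_odd x.den_nz
  obtain ⟨e, c', hc', rfl⟩ := Nat.exists_eq_two_pow_mul_odd hc0.ne'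
  have h1 : nrmK x = N' / D' := by
    rw [nrmK, hN, hD, Int.cast_natCast, nrm_nat _ _ hN', nrm_nat _ _ hD']
  have h2 : 2 ^ (a + l) * (N' * d ^ 2) = 2 ^ (b + i + e) * (D' * c') := by
    have h3 : x * x.den = x.num := Rat.mul_den_eq_num x
    rw [hN, hD] at h3
    push_cast at h3 h
    have : (2 : ℚ) ^ (a + l) * (N' * d ^ 2) = 2 ^ (b + i + e) * (D' * c') := by
      linear_combination (2 ^ b * D') * h - (2 ^ l * d ^ 2) * h3
    exact_mod_cast this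
  have h3 : N' * d ^ 2 ∣ D' * c' := by
    have : Nat.Coprime (N' * d ^ 2) (2 ^ (b + i + e)) :=
      Nat.Coprime.pow_right _ ((Nat.coprime_two_right).mpr (hN'.mul hd.pow))
    exact this.dvd_of_dvd_mul_left ⟨2 ^ (a + l), by rw [← h2]; ring⟩
  have h4 : N' * d ^ 2 ≤ D' * c' := Nat.le_of_dvd (mul_pos hD'.pos hc'.pos) h3
  have h5 : c' < d ^ 2 := lt_of_le_of_lt (Nat.le_mul_of_pos_left _ (by positivity)) hc
  have h6 : N' < D' := by
    by_contra h6
    push Not at h6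
    have := hD'.pos
    nlinarith
  have hD0 : (0 : ℚ) < D' := by exact_mod_cast hD'.pos
  have hN0' : (0 : ℚ) < N' := by exact_mod_cast hN'.pos
  rw [h1]
  exact ⟨by positivity, (div_lt_one hD0).mpr (by exact_mod_cast h6)⟩

/-- The sum of `n` squares. -/
noncomputable def sumSq (n : ℕ) : Form := ⟨n, ∑ i, MvPolynomial.X i ^ 2⟩

lemma ev_sumSq (n : ℕ) (x : Fin n → ℚ) : (sumSq n).ev x = ∑ i, x i ^ 2 := by
  simp [Form.ev, sumSq, MvPolynomial.eval₂_sum]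

lemma euclid (k : ℕ) : (sumSq ((k + 2) * 8)).Euclidean := by
  intro x hx
  change Fin ((k + 2) * 8) → ℚ at x
  obtain ⟨D, hD0, hD⟩ : ∃ D : ℕ, D ≠ 0 ∧ ∀ i, ∃ m : ℤ, x i * D = m := by
    refine ⟨∏ i, (x i).den, Finset.prod_ne_zero_iff.mpr fun i _ => (x i).den_nz, fun i => ?_⟩
    obtain ⟨c, hc⟩ := Finset.dvd_prod_of_mem (fun i => (x i).den) (Finset.mem_univ i)
    refine ⟨(x i).num * c, ?_⟩
    rw [hc]; push_cast; rw [← mul_assoc, Rat.mul_den_eq_num]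
  obtain ⟨l, d0, hd0, rfl⟩ := Nat.exists_eq_two_pow_mul_odd hD0
  choose v0 hv0 using hD
  set g : ℤ := Finset.univ.gcd v0 with hg
  obtain ⟨y0, hy0⟩ := Finset.gcd_eq_sum_mul Finset.univ v0
  set e : ℕ := Int.gcd g d0 with he
  have he0 : 0 < e := Int.gcd_pos_of_ne_zero_right _ (by exact_mod_cast hd0.pos.ne')
  obtain ⟨d, hd⟩ : e ∣ d0 := by
    have := Int.gcd_dvd_right g d0
    exact_mod_cast this
  have hv : ∀ i, ∃ m : ℤ, v0 i = e * m := fun i =>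
    (Int.gcd_dvd_left g d0).trans (Finset.gcd_dvd (Finset.mem_univ i))
  choose v hv using hv
  have hdo : Odd d := by rw [hd] at hd0; exact (Nat.odd_mul.mp hd0).2
  have hxv : ∀ i, x i * (2 ^ l * d) = v i := fun i => by
    have h1 := hv0 i
    rw [hv i, hd] at h1
    push_cast at h1
    have he' : (e : ℚ) ≠ 0 := by exact_mod_cast he0.ne'
    apply mul_left_cancel₀ he'
    linear_combination h1
  have hd1 : 1 < d := by
    by_contra h
    have : d = 1 := by have := hdo.pos; omega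
    exact hx fun i => (mem_R _).mpr ⟨l, v i, by simpa [this] using hxv i⟩
  have hb : ∑ j, v j * (y0 j * Int.gcdA g d0) + d * Int.gcdB g d0 = 1 := by
    have h1 : (e : ℤ) = g * Int.gcdA g d0 + d0 * Int.gcdB g d0 := Int.gcd_eq_gcd_ab g d0
    have he' : (e : ℤ) ≠ 0 := by exact_mod_cast he0.ne'
    apply mul_left_cancel₀ he'
    have h2 : (e : ℤ) * ∑ j, v j * (y0 j * Int.gcdA g d0) = g * Int.gcdA g d0 := by
      conv_rhs => rw [hg, hy0]
      rw [Finset.mul_sum, Finset.sum_mul]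
      exact Finset.sum_congr rfl fun j _ => by rw [hv j, ← hy0, ← hg]; ring
    have h3 : (d0 : ℤ) = e * d := by exact_mod_cast hd
    linear_combination h2 - h1 - Int.gcdB g d0 * h3
  obtain ⟨z, hz, i, c, hc0, hc1, hs⟩ := core k finProdFinEquiv.symm d hdo hd1 v _ _ hb
  choose w hw using hz
  have hmem : ∀ j, (-(w j : ℚ) / 2 ^ l) ∈ R := fun j =>
    (mem_R _).mpr ⟨l, -w j, by push_cast; field_simp⟩
  refine ⟨fun j => ⟨_, hmem j⟩, ?_⟩
  apply nrmK_bound _ i (2 * l) c d hdo hc0 hc1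
  rw [ev_sumSq, Finset.sum_mul]
  have hs' : ∑ j, (z j : ℚ) ^ 2 = 2 ^ i * c := by exact_mod_cast hs
  rw [← hs']
  refine Finset.sum_congr rfl fun j _ => ?_
  have h1 : (z j : ℚ) - v j = d * w j := by exact_mod_cast hw j
  have h2 : (x j - -(w j : ℚ) / 2 ^ l) * (2 ^ l * d) = z j := by
    have := hxv j
    field_simp
    linear_combination this - h1
  rw [← h2]; ring

lemma quad (n : ℕ) (hn : 1 ≤ n) : (sumSq n).IsQuadratic := by
  refine ⟨hn, MvPolynomial.IsHomogeneous.sum _ _ _ fun i _ => MvPolynomial.isHomogeneous_X_pow i 2, ?_⟩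
  have key : ∀ a : Fin n → ℚ, ∑ i, (a + a) i ^ 2 - ∑ i, a i ^ 2 - ∑ i, a i ^ 2 = 0 → a = 0 := by
    intro a h
    have h1 : ∑ i, a i ^ 2 = 0 := by
      have : ∑ i, (a + a) i ^ 2 = 4 * ∑ i, a i ^ 2 := by
        rw [Finset.mul_sum]; exact Finset.sum_congr rfl fun j _ => by simp; ring
      linarith
    funext i
    have := (Finset.sum_eq_zero_iff_of_nonneg fun j _ => sq_nonneg (a j)).mp h1 i (Finset.mem_univ i)
    exact pow_eq_zero_iff two_ne_zero |>.mp this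
  intro a ha
  have h := ha a
  rw [ev_sumSq, ev_sumSq] at h
  exact key a h

lemma aniso (n : ℕ) : (sumSq n).Anisotropic := by
  have key : ∀ a : Fin n → R, MvPolynomial.eval a (∑ i, MvPolynomial.X i ^ 2) = 0 → a = 0 := by
    intro a h
    have h1 : ∑ i, a i ^ 2 = 0 := by simpa using h
    have h2 : ∑ i, (a i : ℚ) ^ 2 = 0 := by exact_mod_cast congrArg Subtype.val h1
    funext i
    have := (Finset.sum_eq_zero_iff_of_nonneg fun j _ => sq_nonneg (a j : ℚ)).mp h2 i (Finset.mem_univ i)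
    exact Subtype.ext (pow_eq_zero_iff two_ne_zero |>.mp this)
  exact fun a ha h => ha (key a h)

theorem result : ∃ F : ℕ → Form,
    (∀ m, (F m).IsQuadratic ∧ (F m).Anisotropic ∧ (F m).Euclidean) ∧
      ∀ m m', m ≠ m' → ¬ (F m).Iso (F m') := by
  refine ⟨fun k => sumSq ((k + 2) * 8), fun k => ⟨quad _ (by omega), aniso _, euclid k⟩, ?_⟩
  rintro m m' h ⟨h1, -⟩
  change (m' + 2) * 8 = (m + 2) * 8 at h1
  omega

end Pool.Agent.Results.MP_23f460_nt.SumSquares
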